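import Pool.Agent.H93.GT.Targets

/-!
# Module GSG: signs on the regions and the partition of a region
-/

namespace Pool.Agent.H94.GT

open MeasureTheory AddCircle Finset Pool.Agent.H87.Synth Pool.Agent.H85.SC
open Pool.Agent.H93.ET (sg jj iE iA T_KKL T_CUT T_BRK T_SER T_CRI)
open Pool.Agent.H93.GT

theorem chi_pm {m j : ℕ} {z : ℤ} (h : chi m j z ≠ 0) : chi m j z = 1 ∨ chi m j z = -1 := by
  unfold chi at h ⊢
  exact legendreSym.eq_one_or_neg_one (pr m j)
    (fun h0 => h ((legendreSym.eq_zero_iff (pr m j) z).2 h0))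

theorem mem_RS {d : ℕ → ℝ} (P : Pos d) (n i : ℕ) (z : ℤ) : z ∈ P.RS n i ↔ P.Reg n i z := by
  simp only [Pos.RS, Finset.mem_filter, Finset.mem_Ico]
  exact ⟨fun h => h.2, fun h => ⟨⟨h.2.1, h.2.2.1⟩, h⟩⟩

theorem mem_FA {d : ℕ → ℝ} (P : Pos d) (n i : ℕ) (s z : ℤ) :
    z ∈ P.FA n i s ↔ P.Reg n i z ∧ s1 n i z = s ∧ s2 n i z = s ∧ s3 n i z = s := by
  unfold Pos.FA
  rw [Finset.mem_filter, mem_RS]

theorem mem_FS {d : ℕ → ℝ} (P : Pos d) (n i : ℕ) (s z : ℤ) :
    z ∈ P.FS n i s ↔ P.Reg n i z ∧ s1 n i z = s ∧ s2 n i z = s ∧ s3 n i z = -s := by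
  unfold Pos.FS
  rw [Finset.mem_filter, mem_RS]

theorem mem_FD {d : ℕ → ℝ} (P : Pos d) (n i : ℕ) (s z : ℤ) :
    z ∈ P.FD n i s ↔ P.Reg n i z ∧ s1 n i z ≠ s2 n i z ∧ s3 n i z = s := by
  unfold Pos.FD
  rw [Finset.mem_filter, mem_RS]

theorem reg_sg {d : ℕ → ℝ} (P : Pos d) (n i : ℕ) (z : ℤ) (h : P.Reg n i z) :
    (s1 n i z = 1 ∨ s1 n i z = -1) ∧ (s2 n i z = 1 ∨ s2 n i z = -1) ∧
    (s3 n i z = 1 ∨ s3 n i z = -1) := by
  obtain ⟨-, -, -, -, h0, h1, h2⟩ := h
  refine ⟨chi_pm h0, chi_pm h1, ?_⟩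
  unfold s3
  rcases neg_one_pow_eq_or ℤ (lg i) with e | e <;> rcases chi_pm h2 with e' | e' <;>
    rw [e, e'] <;> norm_num

/-- The module GSG. -/
theorem gsg (_h1 : T_PRE) : T_GSG := by
  classical
  intro d P
  refine ⟨mem_RS P, reg_sg P, ?_, ?_, ?_, ?_⟩
  · intro n i
    refine ⟨?_, ?_, ?_⟩ <;> rw [Finset.disjoint_left] <;> intro z hz hz'
    · rw [mem_FA] at hz hz'
      have := hz.2.1.symm.trans hz'.2.1
      omega
    · rw [mem_FS] at hz hz'
      have := hz.2.1.symm.trans hz'.2.1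
      omega
    · rw [mem_FD] at hz hz'
      have := hz.2.2.symm.trans hz'.2.2
      omega
  · intro n i z hz
    obtain ⟨q1, q2, q3⟩ := reg_sg P n i z hz
    have hT : sg true = 1 := rfl
    have hF : sg false = -1 := rfl
    by_cases h12 : s1 n i z = s2 n i z
    · by_cases h13 : s1 n i z = s3 n i z
      · rcases q1 with q | q
        · refine ⟨true, Or.inl ?_⟩
          rw [mem_FA, hT]
          exact ⟨hz, q, by rw [← h12, q], by rw [← h13, q]⟩
        · refine ⟨false, Or.inl ?_⟩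
          rw [mem_FA, hF]
          exact ⟨hz, q, by rw [← h12, q], by rw [← h13, q]⟩
      · rcases q1 with q | q
        · refine ⟨true, Or.inr (Or.inl ?_)⟩
          rw [mem_FS, hT]
          refine ⟨hz, q, by rw [← h12, q], ?_⟩
          rcases q3 with q3 | q3
          · exact absurd (q.trans q3.symm) h13
          · exact q3
        · refine ⟨false, Or.inr (Or.inl ?_)⟩
          rw [mem_FS, hF]
          refine ⟨hz, q, by rw [← h12, q], ?_⟩
          rcases q3 with q3 | q3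
          · rw [q3, neg_neg]
          · exact absurd (q.trans q3.symm) h13
    · rcases q3 with q3 | q3
      · refine ⟨true, Or.inr (Or.inr ?_)⟩
        rw [mem_FD, hT]
        exact ⟨hz, h12, q3⟩
      · refine ⟨false, Or.inr (Or.inr ?_)⟩
        rw [mem_FD, hF]
        exact ⟨hz, h12, q3⟩
  · intro n i g hv
    unfold Pos.gA Pos.gS Pos.gD Pos.FA Pos.FS Pos.FD
    simp only [Finset.sum_filter]
    simp only [← Finset.sum_add_distrib]
    refine Finset.sum_congr rfl fun z hz => ?_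
    rw [mem_RS] at hz
    obtain ⟨q1, q2, q3⟩ := reg_sg P n i z hz
    rcases q1 with q1 | q1 <;> rcases q2 with q2 | q2 <;> rcases q3 with q3 | q3 <;>
      simp [q1, q2, q3]
  · intro n i s z hv hi1 hz
    obtain ⟨v1, v2⟩ := hv
    have hlg : i = 2 ^ lg i → 1 ≤ lg i := by
      intro c1
      by_contra hh
      have : lg i = 0 := by omega
      rw [this] at c1
      exact hi1 c1
    unfold Pos.EM at hz
    unfold ps
    split_ifs at hz ⊢ with c1 c2
    · rw [mem_FS] at hz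
      exact ⟨n, _, hz.1, hz.1.1, rfl, Or.inl rfl⟩
    · rw [mem_FD] at hz
      have h1 := hlg c1
      obtain ⟨b, hb⟩ : ∃ b, lg i = b + 1 := ⟨lg i - 1, by omega⟩
      refine ⟨_, _, hz.1, hz.1.1, rfl, Or.inr ⟨b, ?_, ?_⟩⟩
      · rw [hb, Nat.add_sub_cancel] at c2 ⊢
        omega
      · rw [hb, Nat.add_sub_cancel] at c2 ⊢
        rw [hb, pow_succ] at v2
        omega
    · rw [mem_FD] at hz
      exact ⟨n, _, hz.1, hz.1.1, rfl, Or.inl rfl⟩

end Pool.Agent.H94.GT

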