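import Pool.Agent.H93.GT.Targets
import Pool.Agent.H85.SC.NEG

/-!
# Module GST: the functional of the stations
-/

namespace Pool.Agent.H94.GT

open MeasureTheory AddCircle Finset Pool.Agent.H87.Synth Pool.Agent.H85.SC
open Pool.Agent.H93.ET (sg jj iE iA T_KKL T_CUT T_BRK T_SER T_CRI)
open Pool.Agent.H93.GT

open Classical in
/-- the weight of a station without the absorbing points of the root station -/
noncomputable def Wq {d : ℕ → ℝ} (P : Pos d) (p : ℕ × ℕ) (z : ℤ) : ℂ :=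
  if p.2 = 1 ∧ s1 p.1 p.2 z = s2 p.1 p.2 z ∧ s1 p.1 p.2 z = s3 p.1 p.2 z then 0
    else P.wt p.1 p.2 z

open Classical in
/-- a double sum over stations and points as a single sum -/
theorem dbl (s : Finset (ℕ × ℕ)) (R : ℕ × ℕ → Finset ℤ) (W : ℕ × ℕ → ℤ → ℂ) (F : ℤ → ℂ) :
    ∑ p ∈ s, ∑ z ∈ R p, W p z * F z =
      ∑ z ∈ s.biUnion R, (∑ p ∈ s, if z ∈ R p then W p z else 0) * F z := by
  simp only [Finset.sum_mul]
  rw [Finset.sum_comm]
  refine Finset.sum_congr rfl fun p hp => ?_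
  have h1 : R p ⊆ s.biUnion R := Finset.subset_biUnion_of_mem R hp
  rw [← Finset.sum_subset h1]
  · refine Finset.sum_congr rfl fun z hz => ?_
    rw [if_pos hz]
  · intro z _ hz
    rw [if_neg hz, zero_mul]

/-- The module GST. -/
theorem gst (h1 : T_GTT) (h2 : T_GPR) (h3 : T_GUQ) (h4 : T_LIM) (h5 : T_GSG) : T_GST := by
  classical
  intro d P S hS
  obtain ⟨-, hu, -, -⟩ := h3 d P
  obtain ⟨hRS, -⟩ := h5 d P
  let Φ : ℕ → (L1 →L[ℂ] ℂ) := fun M =>
    ∑ p ∈ stn S M, ∑ z ∈ P.RS p.1 p.2, Wq P p z • coeffL z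
  have hΦ : ∀ M g, Φ M g = ∑ p ∈ stn S M, ∑ z ∈ P.RS p.1 p.2, Wq P p z * coeff g z := by
    intro M g
    simp only [Φ, _root_.sum_apply, _root_.smul_apply, coeffL_apply, smul_eq_mul]
  have hb : ∀ M g, ‖Φ M g‖ ≤ 250 * ‖g‖ := by
    intro M g
    rw [hΦ, dbl (stn S M) (fun p => P.RS p.1 p.2) (Wq P) (coeff g)]
    refine norm_functional_le _ _ _ ?_ g
    intro x
    have e1 := h1 d P S M (fourier (-1) x) (fourier_norm_apply _ _)
    have e2 := dbl (stn S M) (fun p => P.RS p.1 p.2) (Wq P) (fun z => (fourier (-z) x : ℂ))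
    rw [← e2]
    have e3 : ∑ p ∈ stn S M, ∑ z ∈ P.RS p.1 p.2, Wq P p z * (fourier (-z) x : ℂ) =
        ∑ p ∈ stn S M, ∑ z ∈ P.RS p.1 p.2, (if p.2 = 1 ∧ s1 p.1 p.2 z = s2 p.1 p.2 z ∧
          s1 p.1 p.2 z = s3 p.1 p.2 z then 0 else P.wt p.1 p.2 z) *
          (fourier (-1) x : ℂ) ^ z := by
      refine Finset.sum_congr rfl fun p _ => Finset.sum_congr rfl fun z _ => ?_
      rw [fourier_neg_zpow]
      unfold Wq
      rfl
    rw [e3]
    exact e1
  obtain ⟨Ψ, hΨ⟩ := h4 Φ 250 hb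
  have hex : ∀ M z, Φ M (ex z) = ∑ p ∈ stn S M, if z ∈ P.RS p.1 p.2 then Wq P p z else 0 := by
    intro M z
    rw [hΦ]
    refine Finset.sum_congr rfl fun p _ => ?_
    simp only [coeff_ex, mul_ite, mul_one, mul_zero]
    rw [Finset.sum_ite_eq]
  refine ⟨Ψ, ?_, ?_, ?_⟩
  · intro n i z hn hr
    refine hΨ _ _ ⟨slot n i + n + i + 1, fun M hM => ?_⟩
    rw [hex]
    have hmem : (n, i) ∈ stn S M := by
      simp only [stn, Finset.mem_filter, Finset.mem_product, Finset.mem_range]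
      exact ⟨⟨by omega, by omega⟩, hn, hr.1, by omega⟩
    rw [Finset.sum_eq_single (n, i)]
    · rw [if_pos ((hRS n i z).2 hr)]
      unfold Wq
      rfl
    · intro p _ hp
      rw [if_neg]
      intro hz
      obtain ⟨e1, e2⟩ := hu _ _ _ _ _ ((hRS p.1 p.2 z).1 hz) hr
      exact hp (Prod.ext e1 e2)
    · intro h
      exact absurd hmem h
  · intro z hz
    refine hΨ _ _ ⟨0, fun M _ => ?_⟩
    rw [hex]
    refine Finset.sum_eq_zero fun p hp => ?_
    rw [if_neg]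
    intro h
    have hpS : p.1 ∈ S := by
      simp only [stn, Finset.mem_filter] at hp
      exact hp.2.1
    exact hz p.1 p.2 hpS ((hRS p.1 p.2 z).1 h)
  · intro v a hbr f hf
    refine hΨ _ _ ⟨2, fun M hM => ?_⟩
    rw [hΦ]
    have e := h2 d P S hS v a hbr (coeff f) hf.1 M hM
    rw [← e]
    refine Finset.sum_congr rfl fun p _ => Finset.sum_congr rfl fun z _ => ?_
    unfold Wq
    rfl

end Pool.Agent.H94.GT

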